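import Pool.Agent.Helper25.HL.Goals4

/-!
# Project HL (MP_03bcbb_an), packet CC
-/

set_option autoImplicit false

noncomputable section

namespace Pool.Agent.Helper18.HL

open Pool.Agent.Helper25.HL

section

variable {P : ℕ → ℕ} {K η : ℕ → ℝ} {J₁ : ℕ → ℕ} (Q : Pos P K η J₁)

theorem a_lt_b (i : ℕ) : Q.a i + 2 ≤ Q.b i := by
  rw [Q.hb i]; omega

theorem a_ge (i : ℕ) : 2 ≤ Q.a i := by
  induction i with
  | zero => exact Q.h2
  | succ i ih =>
    have := a_lt_b Q i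
    have := Q.hba i
    omega

theorem b_lt_a {i i' : ℕ} (h : i < i') : Q.b i < Q.a i' := by
  induction i' with
  | zero => omega
  | succ i' ih =>
    have h1 := Q.hba i'
    rcases Nat.lt_succ_iff_lt_or_eq.1 h with h2 | h2
    · have := ih h2
      have := a_lt_b Q i'
      omega
    · rw [h2]; exact h1

theorem b_le_b {i i' : ℕ} (h : i ≤ i') : Q.b i ≤ Q.b i' := by
  rcases h.eq_or_lt with h | h
  · rw [h]
  · have := b_lt_a Q h
    have := a_lt_b Q i'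
    omega

theorem rho_le (hm : StrictMono P) (i k : ℕ) (hk : Q.a i ≤ k) :
    Q.ρ i ≤ P (k - 1) ^ 8 := by
  cases i with
  | zero =>
    rw [Q.hρ0]
    have := Q.h2
    exact Nat.pow_le_pow_left (hm.monotone (by omega)) 8
  | succ i =>
    rw [Q.hρ i]
    have := Q.hba i
    exact Nat.pow_le_pow_left (hm.monotone (by omega)) 8

theorem rho_ge (hm : StrictMono P) {i i' : ℕ} (h : i < i') : P (Q.b i) ^ 8 ≤ Q.ρ i' := by
  cases i' with
  | zero => omega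
  | succ i' =>
    rw [Q.hρ i']
    exact Nat.pow_le_pow_left (hm.monotone (b_le_b Q (by omega))) 8

theorem P_ge (hm : StrictMono P) (h64 : 64 ≤ P 1) {k : ℕ} (hk : 1 ≤ k) : 64 ≤ P k :=
  h64.trans (hm.monotone hk)

theorem rho_ge8 (hm : StrictMono P) (h64 : 64 ≤ P 1) (i : ℕ) : 8 ≤ Q.ρ i := by
  have key : ∀ k, 1 ≤ k → 8 ≤ P k ^ 8 := by
    intro k hk
    have h := P_ge hm h64 hk
    calc 8 ≤ 64 ^ 8 := by norm_num
      _ ≤ P k ^ 8 := Nat.pow_le_pow_left h 8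
  cases i with
  | zero => rw [Q.hρ0]; exact key 1 le_rfl
  | succ i =>
    rw [Q.hρ i]
    have := a_lt_b Q i
    exact key _ (by omega)

variable {D : ∀ k, Lv (P k) (P (k + 1))} (H : LvH P K η J₁ Q D)

include H

theorem r_zero (k : ℕ) : (D k).r 0 = 1 := by
  by_cases hk : k ≤ 1
  · exact H.hr0 k hk 0
  · by_cases hw : ∃ i, Q.a i ≤ k ∧ k < Q.b i
    · obtain ⟨i, h1, h2⟩ := hw
      rw [H.hrw i k h1 h2 0, if_pos (Nat.zero_le _), pow_zero]
    · push Not at hw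
      rw [H.hrb k (by omega) (fun i h => absurd h.2 (not_lt.2 (hw i h.1))) 0, mul_zero, pow_zero]

theorem r_lo {i k : ℕ} (h1 : Q.a i ≤ k) (h2 : k < Q.b i) {j : ℕ} (hj : j ≤ J₁ i) :
    (D k).r (j + 1) = Q.ρ i * (D k).r j := by
  rw [H.hrw i k h1 h2, H.hrw i k h1 h2, if_pos (by omega), if_pos (by omega), pow_succ]
  ring

theorem r_hi {i k : ℕ} (h1 : Q.a i ≤ k) (h2 : k < Q.b i) {j : ℕ} (hj : J₁ i + 1 ≤ j) :
    (D k).r (j + 1) = (P (k - 1) : ℝ) ^ 8 * (D k).r j := by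
  rw [H.hrw i k h1 h2, H.hrw i k h1 h2, if_neg (by omega)]
  have e : 8 * (j + 1 - (J₁ i + 1)) = 8 * (j - (J₁ i + 1)) + 8 := by omega
  rw [e, pow_add]
  by_cases hj' : j ≤ J₁ i + 1
  · have : j = J₁ i + 1 := by omega
    rw [if_pos hj', this]
    simp
    ring
  · rw [if_neg hj']; ring

theorem r_br {k : ℕ} (hk : 2 ≤ k) (hw : ∀ i, ¬ (Q.a i ≤ k ∧ k < Q.b i)) (j : ℕ) :
    (D k).r (j + 1) = (P (k - 1) : ℝ) ^ 8 * (D k).r j := by
  rw [H.hrb k hk hw, H.hrb k hk hw]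
  have e : 8 * (j + 1) = 8 * j + 8 := by ring
  rw [e, pow_add]; ring

theorem r_step (hm : StrictMono P) (h64 : 64 ≤ P 1) {k : ℕ} (hk : 2 ≤ k) (j : ℕ) :
    8 * (D k).r j ≤ (D k).r (j + 1) ∧ (D k).r (j + 1) ≤ (P (k - 1) : ℝ) ^ 8 * (D k).r j := by
  have hpos := (D k).hr j
  have h8 : (8 : ℝ) ≤ (P (k - 1) : ℝ) ^ 8 := by
    have h := P_ge hm h64 (k := k - 1) (by omega)
    have h' : (64 : ℝ) ≤ P (k - 1) := by exact_mod_cast h
    calc (8 : ℝ) ≤ 64 ^ 8 := by norm_num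
      _ ≤ _ := by gcongr
  by_cases hw : ∃ i, Q.a i ≤ k ∧ k < Q.b i
  · obtain ⟨i, h1, h2⟩ := hw
    by_cases hj : j ≤ J₁ i
    · rw [r_lo Q H h1 h2 hj]
      have h3 : (8 : ℝ) ≤ Q.ρ i := by exact_mod_cast rho_ge8 Q hm h64 i
      have h4 : (Q.ρ i : ℝ) ≤ (P (k - 1) : ℝ) ^ 8 := by exact_mod_cast rho_le Q hm i k h1
      exact ⟨by gcongr, by gcongr⟩
    · rw [r_hi Q H h1 h2 (by omega)]
      exact ⟨by gcongr, le_rfl⟩
  · push Not at hw
    rw [r_br Q H hk (fun i h => absurd h.2 (not_lt.2 (hw i h.1))) j]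
    exact ⟨by gcongr, le_rfl⟩

theorem r_ge (hm : StrictMono P) (h64 : 64 ≤ P 1) {k : ℕ} (hk : 2 ≤ k) (j : ℕ) :
    (8 : ℝ) ^ j ≤ (D k).r j := by
  induction j with
  | zero => rw [r_zero Q H, pow_zero]
  | succ j ih =>
    rw [pow_succ, mul_comm]
    exact (mul_le_mul_of_nonneg_left ih (by norm_num)).trans (r_step Q H hm h64 hk j).1

theorem r_le (hm : StrictMono P) (h64 : 64 ≤ P 1) {k : ℕ} (hk : 2 ≤ k) (j : ℕ) :
    (D k).r j ≤ (P (k - 1) : ℝ) ^ (8 * j) := by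
  induction j with
  | zero => rw [r_zero Q H, mul_zero, pow_zero]
  | succ j ih =>
    have h := (r_step Q H hm h64 hk j).2
    refine h.trans ?_
    have e : 8 * (j + 1) = 8 + 8 * j := by ring
    rw [e, pow_add]
    gcongr

theorem J_le (k : ℕ) : (D k).J ≤ k := by
  by_cases hk : k ≤ 1
  · rw [H.hJ0 k hk]; exact Nat.zero_le _
  · by_cases hw : ∃ i, Q.a i ≤ k ∧ k < Q.b i
    · obtain ⟨i, h1, h2⟩ := hw
      rw [H.hJw i k h1 h2]
      exact (Q.hJ i).2.2.trans h1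
    · push Not at hw
      rw [H.hJb k (by omega) (fun i h => absurd h.2 (not_lt.2 (hw i h.1)))]

theorem rJ_le (hm : StrictMono P) (h64 : 64 ≤ P 1)
    (hg : ∀ k, 1 ≤ k → (P k) ^ (64 * (k + 1)) ≤ P (k + 1)) (k : ℕ) (hk : 1 ≤ (D k).J) :
    (D k).r (D k).J ≤ (P k : ℝ) ^ (1 / 8 : ℝ) := by
  have hk2 : 2 ≤ k := by
    by_contra hc
    rw [H.hJ0 k (by omega)] at hk
    omega
  have h1 := r_le Q H hm h64 hk2 (D k).J
  have hP1 : (1 : ℝ) ≤ P (k - 1) := by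
    have := P_ge hm h64 (k := k - 1) (by omega)
    have h' : (64 : ℝ) ≤ P (k - 1) := by exact_mod_cast this
    linarith
  have h2 : (P (k - 1) : ℝ) ^ (8 * (D k).J) ≤ (P (k - 1) : ℝ) ^ (8 * k) :=
    pow_le_pow_right₀ hP1 (Nat.mul_le_mul_left 8 (J_le Q H k))
  have h3 : ((P (k - 1) : ℝ) ^ (8 * k)) ^ 8 ≤ P k := by
    have h4 := hg (k - 1) (by omega)
    have e : k - 1 + 1 = k := by omega
    rw [e] at h4
    have h5 : ((P (k - 1) : ℝ)) ^ (64 * k) ≤ P k := by exact_mod_cast h4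
    rw [← pow_mul]
    have e2 : 8 * k * 8 = 64 * k := by ring
    rw [e2]; exact h5
  refine (h1.trans h2).trans ?_
  have h6 : 0 ≤ (P (k - 1) : ℝ) ^ (8 * k) := by positivity
  calc (P (k - 1) : ℝ) ^ (8 * k) = (((P (k - 1) : ℝ) ^ (8 * k)) ^ 8) ^ (1 / 8 : ℝ) := by
        rw [← Real.rpow_natCast (((P (k - 1) : ℝ) ^ (8 * k))) 8, ← Real.rpow_mul h6]
        norm_num
    _ ≤ _ := Real.rpow_le_rpow (by positivity) h3 (by norm_num)

end

theorem cc : S_CC := by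
  intro P K η J₁ Q D hm hP0 h64 hg hd h2k hK hη hJ1 H
  refine ⟨fun k hk j _ _ => r_ge Q H hm h64 hk j, fun k hk => rJ_le Q H hm h64 hg k hk,
    J_le Q H, fun i c hc hcb => ?_⟩
  have hai := a_ge Q i
  have hρ8 : (8 : ℝ) ≤ Q.ρ i := by exact_mod_cast rho_ge8 Q hm h64 i
  have hρJ : (1 : ℝ) ≤ (Q.ρ i : ℝ) ^ (J₁ i) := one_le_pow₀ (by linarith)
  have hJc : (D c).J = Q.Jw i := H.hJw i c hc (by omega)
  have hJc1 : (D (c + 1)).J = Q.Jw i := H.hJw i (c + 1) (by omega) hcb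
  have hrc : ∀ k, Q.a i ≤ k → k < Q.b i → (D k).r (J₁ i) = (Q.ρ i : ℝ) ^ (J₁ i) := by
    intro k h1 h2
    rw [H.hrw i k h1 h2, if_pos (by omega)]
  have hRR : ∀ k, Q.a i ≤ k → k < Q.b i →
      2 / 2 ^ (J₁ i) * Real.sqrt ((D k).r (J₁ i)) ≤ (Q.ρ i : ℝ) ^ (J₁ i) := by
    intro k h1 h2
    rw [hrc k h1 h2]
    have h3 : (2 : ℝ) / 2 ^ (J₁ i) ≤ 1 := by
      rw [div_le_one (by positivity)]
      calc (2 : ℝ) = 2 ^ 1 := by norm_num
        _ ≤ 2 ^ (J₁ i) := pow_le_pow_right₀ (by norm_num) (hJ1 i)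
    have h4 : Real.sqrt ((Q.ρ i : ℝ) ^ (J₁ i)) ≤ (Q.ρ i : ℝ) ^ (J₁ i) := by
      rw [Real.sqrt_le_left (by positivity)]
      nlinarith
    calc 2 / 2 ^ (J₁ i) * Real.sqrt ((Q.ρ i : ℝ) ^ (J₁ i)) ≤
        1 * Real.sqrt ((Q.ρ i : ℝ) ^ (J₁ i)) := by gcongr
      _ ≤ _ := by rw [one_mul]; exact h4
  have hP48 : ∀ x : ℕ, c + 1 ≤ x → (P (c + 1) : ℝ) ^ 4 ≤ (P x : ℝ) ^ 8 := by
    intro x hx
    have h1 : (P (c + 1) : ℝ) ≤ P x := by exact_mod_cast hm.monotone hx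
    have h2 : (1 : ℝ) ≤ P (c + 1) := by
      have := P_ge hm h64 (k := c + 1) (by omega)
      have h' : (64 : ℝ) ≤ P (c + 1) := by exact_mod_cast this
      linarith
    calc (P (c + 1) : ℝ) ^ 4 ≤ (P (c + 1) : ℝ) ^ 8 := pow_le_pow_right₀ h2 (by norm_num)
      _ ≤ _ := by gcongr
  have hKi := hK i
  refine
    { hP := by have := P_ge hm h64 (k := c + 1) (by omega); omega
      hJ := by rw [hJc, hJc1]
      hJ₁ := hJ1 i
      hJ₁' := by rw [hJc]; exact (Q.hJ i).1.le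
      hr8 := fun j _ _ => r_ge Q H hm h64 (by omega) j
      hR := hRR c hc (by omega)
      hR' := hRR (c + 1) (by omega) hcb
      hrJ := rJ_le Q H hm h64 hg (c + 1) (by
        rw [hJc1]; have := (Q.hJ i).1; omega)
      hnl := H.hnl i (c + 1) (by omega) hcb _ (by rw [hJc]; exact Q.hθ i)
      hd := hd c (by omega)
      h2J := fun k hk => by
        refine le_trans ?_ (h2k c)
        exact Nat.pow_le_pow_right (by norm_num) ((J_le Q H k).trans hk)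
      hH1 := fun k hk hkb => ?_
      hH2 := fun k hk hkb j hj1 hj2 => ?_
      hK := by linarith
      hε := by positivity
      hR0 := by positivity }
  · have hak : Q.a i ≤ k := by omega
    refine ⟨by rw [H.hJw i k hak hkb]; exact (Q.hJ i).1.le, fun j hj1 hj2 => ?_⟩
    rw [r_hi Q H hak hkb hj1]
    exact mul_le_mul_of_nonneg_right (hP48 (k - 1) (by omega)) ((D k).hr j).le
  · by_cases hw : ∃ i', Q.a i' ≤ k ∧ k < Q.b i'
    · obtain ⟨i', h1, h2⟩ := hw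
      have hii : i < i' := by
        by_contra hcon
        have := b_le_b Q (not_lt.1 hcon)
        omega
      by_cases hj : j ≤ J₁ i'
      · rw [r_lo Q H h1 h2 hj]
        have h3 : ((P (Q.b i) : ℝ)) ^ 8 ≤ Q.ρ i' := by exact_mod_cast rho_ge Q hm hii
        exact mul_le_mul_of_nonneg_right ((hP48 (Q.b i) (by omega)).trans h3) ((D k).hr j).le
      · rw [r_hi Q H h1 h2 (by omega)]
        exact mul_le_mul_of_nonneg_right (hP48 (k - 1) (by omega)) ((D k).hr j).le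
    · push Not at hw
      rw [r_br Q H (by omega) (fun i h => absurd h.2 (not_lt.2 (hw i h.1))) j]
      exact mul_le_mul_of_nonneg_right (hP48 (k - 1) (by omega)) ((D k).hr j).le

end Pool.Agent.Helper18.HL
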