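import Pool.Agent.Helper25.HL.Goals2

/-!
# Project HL (MP_03bcbb_an), packet GIC
-/

set_option autoImplicit false

noncomputable section

namespace Pool.Agent.Helper18.HL

open Pool.Agent.Helper25.HL

/-- the four units -/
def un : Fin 4 → ℂ := ![1, -1, Complex.I, -Complex.I]

open Classical in
/-- the unit items -/
def steps (q : ℕ) : Finset (Fin q → ℂ) :=
  insert 0 (Finset.univ.image fun x : Fin q × Fin 4 => fun i => if i = x.1 then un x.2 else 0)

theorem steps_card (q : ℕ) : (steps q).card ≤ 4 * q + 1 := by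
  classical
  unfold steps
  refine (Finset.card_insert_le _ _).trans ?_
  have : (Finset.univ.image fun x : Fin q × Fin 4 =>
      (fun i => if i = x.1 then un x.2 else 0 : Fin q → ℂ)).card ≤ q * 4 := by
    refine Finset.card_image_le.trans ?_
    rw [Finset.card_univ, Fintype.card_prod, Fintype.card_fin, Fintype.card_fin]
  omega

theorem mem_steps {q : ℕ} (t : Fin q) (k : Fin 4) :
    (fun i => if i = t then un k else 0 : Fin q → ℂ) ∈ steps q := by
  classical
  unfold steps
  exact Finset.mem_insert_of_mem (Finset.mem_image.2 ⟨(t, k), Finset.mem_univ _, rfl⟩)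

theorem exists_sign (x : ℤ) (hx : x ≠ 0) : ∃ ε : ℤ, (ε = 1 ∨ ε = -1) ∧ |x - ε| = |x| - 1 := by
  rcases lt_or_gt_of_ne hx with h | h
  · refine ⟨-1, Or.inr rfl, ?_⟩
    rw [abs_of_neg h, abs_of_nonpos (by omega)]; ring
  · refine ⟨1, Or.inl rfl, ?_⟩
    rw [abs_of_pos h, abs_of_nonneg (by omega)]

theorem GI_step {q Z : ℕ} (β : Fin q → ℂ) (h : GI (Z + 1) β) :
    ∃ β' s : Fin q → ℂ, GI Z β' ∧ s ∈ steps q ∧ β' + s = β := by
  classical
  obtain ⟨a, b, hab, hsum⟩ := h
  by_cases hle : ∑ t, (|a t| + |b t|) ≤ (Z : ℤ)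
  · exact ⟨β, 0, ⟨a, b, hab, hle⟩, Finset.mem_insert_self _ _, add_zero _⟩
  · have hpos : ∃ t, a t ≠ 0 ∨ b t ≠ 0 := by
      by_contra hcon
      push Not at hcon
      apply hle
      have : ∑ t, (|a t| + |b t|) = 0 := Finset.sum_eq_zero fun t _ => by
        rw [(hcon t).1, (hcon t).2]; simp
      rw [this]; exact Int.natCast_nonneg _
    obtain ⟨t, ht⟩ := hpos
    have hsum' : ∑ i, (|a i| + |b i|) - 1 ≤ (Z : ℤ) := by push_cast at hsum; omega
    by_cases ha : a t ≠ 0
    · obtain ⟨ε, hε, hε'⟩ := exists_sign (a t) ha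
      refine ⟨fun i => ((a i - if i = t then ε else 0 : ℤ) : ℂ) + (b i : ℂ) * Complex.I,
        fun i => if i = t then (ε : ℂ) else 0, ⟨fun i => a i - if i = t then ε else 0, b,
        fun i => rfl, ?_⟩, ?_, ?_⟩
      · have : ∀ i, |a i - if i = t then ε else 0| + |b i| =
            (|a i| + |b i|) - if i = t then 1 else 0 := by
          intro i
          by_cases hi : i = t
          · subst hi; rw [if_pos rfl, if_pos rfl, hε']; ring
          · rw [if_neg hi, if_neg hi, sub_zero, sub_zero]
        rw [Finset.sum_congr rfl fun i _ => this i, Finset.sum_sub_distrib,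
          Finset.sum_ite_eq' Finset.univ t, if_pos (Finset.mem_univ t)]
        exact hsum'
      · rcases hε with rfl | rfl
        · have := mem_steps t 0
          simpa [un] using this
        · have := mem_steps t 1
          simpa [un] using this
      · funext i
        rw [Pi.add_apply, hab]
        by_cases hi : i = t
        · simp [hi]; ring
        · simp [hi]
    · have hb : b t ≠ 0 := by
        rcases ht with h | h
        · exact absurd h ha
        · exact h
      obtain ⟨ε, hε, hε'⟩ := exists_sign (b t) hb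
      refine ⟨fun i => (a i : ℂ) + ((b i - if i = t then ε else 0 : ℤ) : ℂ) * Complex.I,
        fun i => if i = t then (ε : ℂ) * Complex.I else 0,
        ⟨a, fun i => b i - if i = t then ε else 0, fun i => rfl, ?_⟩, ?_, ?_⟩
      · have : ∀ i, |a i| + |b i - if i = t then ε else 0| =
            (|a i| + |b i|) - if i = t then 1 else 0 := by
          intro i
          by_cases hi : i = t
          · subst hi; rw [if_pos rfl, if_pos rfl, hε']; ring
          · rw [if_neg hi, if_neg hi, sub_zero, sub_zero]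
        rw [Finset.sum_congr rfl fun i _ => this i, Finset.sum_sub_distrib,
          Finset.sum_ite_eq' Finset.univ t, if_pos (Finset.mem_univ t)]
        exact hsum'
      · rcases hε with rfl | rfl
        · have := mem_steps t 2
          simpa [un] using this
        · have := mem_steps t 3
          simpa [un] using this
      · funext i
        rw [Pi.add_apply, hab]
        by_cases hi : i = t
        · simp [hi]; ring
        · simp [hi]

theorem gic1 (q Z : ℕ) : ∃ F : Finset (Fin q → ℂ), (∀ β, GI Z β → β ∈ F) ∧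
    F.card ≤ (4 * q + 1) ^ Z := by
  classical
  induction Z with
  | zero =>
    refine ⟨{0}, fun β h => ?_, by simp⟩
    obtain ⟨a, b, hab, hsum⟩ := h
    have h0 : ∑ t, (|a t| + |b t|) = 0 := le_antisymm (by simpa using hsum)
      (Finset.sum_nonneg fun t _ => by positivity)
    have h1 := (Finset.sum_eq_zero_iff_of_nonneg (fun t _ => by positivity)).1 h0
    rw [Finset.mem_singleton]
    funext t
    have h2 := h1 t (Finset.mem_univ t)
    have h3 : a t = 0 := by
      have := abs_nonneg (a t); have := abs_nonneg (b t)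
      exact abs_eq_zero.1 (by omega)
    have h4 : b t = 0 := by
      have := abs_nonneg (a t); have := abs_nonneg (b t)
      exact abs_eq_zero.1 (by omega)
    rw [hab, h3, h4]; simp
  | succ Z ih =>
    obtain ⟨F, hF, hc⟩ := ih
    refine ⟨(F ×ˢ steps q).image fun x => x.1 + x.2, fun β h => ?_, ?_⟩
    · obtain ⟨β', s, h1, h2, h3⟩ := GI_step β h
      exact Finset.mem_image.2 ⟨(β', s), Finset.mem_product.2 ⟨hF _ h1, h2⟩, h3⟩
    · refine Finset.card_image_le.trans ?_
      rw [Finset.card_product, pow_succ]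
      exact Nat.mul_le_mul hc (steps_card q)

theorem gic2 (d B : ℕ) : ∃ F : Finset (Fin d → ℂ), (∀ β, GB B β → β ∈ F) ∧
    F.card ≤ (2 * B + 1) ^ (2 * d) := by
  classical
  refine ⟨Finset.univ.image fun x : (Fin d → Fin (2 * B + 1)) × (Fin d → Fin (2 * B + 1)) =>
    fun t => ((((x.1 t : ℕ) : ℤ) - B : ℤ) : ℂ) + ((((x.2 t : ℕ) : ℤ) - B : ℤ) : ℂ) * Complex.I,
    fun β h => ?_, ?_⟩
  · obtain ⟨a, b, hab, hbd⟩ := h
    have ha : ∀ t, 0 ≤ a t + B ∧ (a t + B).toNat < 2 * B + 1 := by
      intro t
      have := abs_le.1 (hbd t).1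
      omega
    have hb : ∀ t, 0 ≤ b t + B ∧ (b t + B).toNat < 2 * B + 1 := by
      intro t
      have := abs_le.1 (hbd t).2
      omega
    refine Finset.mem_image.2 ⟨(fun t => ⟨(a t + B).toNat, (ha t).2⟩,
      fun t => ⟨(b t + B).toNat, (hb t).2⟩), Finset.mem_univ _, ?_⟩
    funext t
    have e1 : ((((a t + B).toNat : ℕ) : ℤ) - B : ℤ) = a t := by
      rw [Int.toNat_of_nonneg (ha t).1]; ring
    have e2 : ((((b t + B).toNat : ℕ) : ℤ) - B : ℤ) = b t := by
      rw [Int.toNat_of_nonneg (hb t).1]; ring
    show ((((((a t + B).toNat : ℕ) : ℤ) - B : ℤ)) : ℂ) +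
      ((((((b t + B).toNat : ℕ) : ℤ) - B : ℤ)) : ℂ) * Complex.I = β t
    rw [e1, e2, hab]
  · refine Finset.card_image_le.trans (le_of_eq ?_)
    rw [Finset.card_univ, Fintype.card_prod, Fintype.card_fun, Fintype.card_fin,
      Fintype.card_fin, ← pow_add, two_mul d]

theorem gic : S_GIC := ⟨gic1, gic2⟩

end Pool.Agent.Helper18.HL
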