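import Pool.Agent.Helper25.HL.Goals3

/-!
# Project HL (MP_03bcbb_an), packet H0
-/

set_option autoImplicit false

noncomputable section

namespace Pool.Agent.Helper18.HL

open Pool.Agent.Helper25.HL

/-- Cauchy-Schwarz for finite complex sums -/
theorem cs_complex {ι : Type} [Fintype ι] (x y : ι → ℂ) :
    ‖∑ i, x i * y i‖ ^ 2 ≤ (∑ i, ‖x i‖ ^ 2) * ∑ i, ‖y i‖ ^ 2 := by
  have h1 : ‖∑ i, x i * y i‖ ≤ ∑ i, ‖x i‖ * ‖y i‖ := by
    refine (norm_sum_le _ _).trans (le_of_eq ?_)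
    exact Finset.sum_congr rfl fun i _ => norm_mul _ _
  calc ‖∑ i, x i * y i‖ ^ 2 ≤ (∑ i, ‖x i‖ * ‖y i‖) ^ 2 := by gcongr
    _ ≤ _ := Finset.sum_mul_sq_le_sq_mul_sq _ _ _

theorem h0_scalar {n N : ℕ} (F : Fac n N) (x : Fin N → ℂ) :
    ∑ i, ‖∑ j, F.a j i * x j‖ ^ 2 ≤ 4 * ∑ j, ‖x j‖ ^ 2 := by
  set c : Fin n → ℂ := fun m => ∑ j, F.B m j * x j with hc
  set y : Fin N → ℂ := fun i => ∑ j, F.a j i * x j with hy
  have hyc : ∀ i, y i = ∑ m, F.C m i * c m := by
    intro i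
    simp only [hy, hc, Fac.a, Finset.sum_mul, Finset.mul_sum]
    rw [Finset.sum_comm]
    refine Finset.sum_congr rfl fun m _ => Finset.sum_congr rfl fun j _ => by ring
  have hcn : ∑ m, ‖c m‖ ^ 2 ≤ ∑ j, ‖x j‖ ^ 2 := F.hB x
  set v : Fin N → ℂ := fun i => (starRingEnd ℂ) (y i) with hv
  have hvn : ∀ i, ‖v i‖ = ‖y i‖ := fun i => by simp [hv]
  set S : ℝ := ∑ i, ‖y i‖ ^ 2 with hS
  have hS0 : 0 ≤ S := Finset.sum_nonneg fun i _ => by positivity
  have hSv : ∑ i, ‖v i‖ ^ 2 = S := Finset.sum_congr rfl fun i _ => by rw [hvn]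
  have key : (S : ℂ) = ∑ m, c m * ∑ i, F.C m i * v i := by
    have e1 : (S : ℂ) = ∑ i, y i * v i := by
      rw [hS]; push_cast
      refine Finset.sum_congr rfl fun i _ => ?_
      rw [hv]
      exact (Complex.mul_conj' (y i)).symm
    rw [e1]
    simp only [hyc, Finset.sum_mul, Finset.mul_sum]
    rw [Finset.sum_comm]
    refine Finset.sum_congr rfl fun m _ => Finset.sum_congr rfl fun j _ => by ring
  have h1 : S ^ 2 ≤ (∑ j, ‖x j‖ ^ 2) * (4 * S) := by
    have h2 := cs_complex c (fun m => ∑ i, F.C m i * v i)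
    rw [← key, Complex.norm_real, Real.norm_eq_abs, sq_abs] at h2
    refine h2.trans ?_
    have h3 := F.hC v
    rw [hSv] at h3
    exact mul_le_mul hcn h3 (Finset.sum_nonneg fun i _ => by positivity)
      (Finset.sum_nonneg fun i _ => by positivity)
  rcases hS0.eq_or_lt with h | h
  · rw [← h]
    exact mul_nonneg (by norm_num) (Finset.sum_nonneg fun i _ => by positivity)
  · have h4 : S * S ≤ (4 * ∑ j, ‖x j‖ ^ 2) * S := by nlinarith
    exact le_of_mul_le_mul_right h4 h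

theorem sq_sum_smul {n N : ℕ} (F : Fac n N) {ι : Type} [Fintype ι] (w : Fin N → ι → ℂ) :
    ∑ i, Pool.Agent.Helper25.HL.sq (∑ j, F.a j i • w j) ≤
      4 * ∑ j, Pool.Agent.Helper25.HL.sq (w j) := by
  unfold Pool.Agent.Helper25.HL.sq
  rw [Finset.sum_comm, Finset.sum_comm (s := (Finset.univ : Finset (Fin N))), Finset.mul_sum]
  refine Finset.sum_le_sum fun t _ => ?_
  have h := h0_scalar F (fun j => w j t)
  simpa [Finset.sum_apply] using h

theorem h0 : S_H0 := by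
  intro n N F p q z
  have h1 := sq_sum_smul F (fun j => (z j).1)
  have h2 := sq_sum_smul F (fun j => (z j).2)
  have e1 : ∀ i, (∑ j, F.a j i • z j).1 = ∑ j, F.a j i • (z j).1 := by
    intro i; rw [Prod.fst_sum]; rfl
  have e2 : ∀ i, (∑ j, F.a j i • z j).2 = ∑ j, F.a j i • (z j).2 := by
    intro i; rw [Prod.snd_sum]; rfl
  unfold pq2
  simp only [e1, e2, Finset.sum_add_distrib]
  linarith

end Pool.Agent.Helper18.HL
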