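import Pool.Agent.Helper25.HL.Goals3

/-!
# Project HL (MP_03bcbb_an), packet LAT
-/

set_option autoImplicit false

noncomputable section

namespace Pool.Agent.Helper18.HL

open Pool.Agent.Helper25.HL

theorem lp_sum_apply {P : ℕ → ℕ} {D : ∀ k, Lv (P k) (P (k + 1))} {N : ℕ} (a : Fin N → ℂ)
    (z : Fin N → XX P D) (k : ℕ) : (∑ j, a j • z j) k = ∑ j, a j • z j k := by
  rw [lp.coeFn_sum, Finset.sum_apply]
  rfl

theorem norm_sum_LV {p q : ℕ} (E : Lv p q) {N : ℕ} (a : Fin N → ℂ) (v : Fin N → LV E) :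
    ‖∑ j, a j • v j‖ = lnm E.σ E.J E.r (∑ j, a j • toPair E (v j)) := by
  rw [LV_norm_def, map_sum]
  rfl

theorem lat (h1 : S_HA) (h2 : S_HB) (h3 : S_LP2) : S_LAT := by
  intro P D c m J₁ K ε R hC n N F hn z
  have hn2 : (n : ℝ) ^ 2 ≤ (P (c + 1) : ℝ) ^ 4 := by
    have : (n : ℝ) ≤ (P (c + 1) : ℝ) ^ 2 := by exact_mod_cast hn
    calc (n : ℝ) ^ 2 ≤ ((P (c + 1) : ℝ) ^ 2) ^ 2 := by gcongr
      _ = _ := by ring
  have hsum : ∀ x : XX P D, Summable fun k => ‖x k‖ ^ 2 := fun x => (h3 P D x).1.summable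
  set w : Fin N → XX P D := fun i => ∑ j, F.a j i • z j with hw
  have hwk : ∀ i k, ‖w i k‖ = lnm (D k).σ (D k).J (D k).r
      (∑ j, F.a j i • toPair (D k) (z j k)) := by
    intro i k
    rw [hw]
    show ‖(∑ j, F.a j i • z j) k‖ = _
    rw [lp_sum_apply]
    exact norm_sum_LV (D k) _ _
  have hzk : ∀ j k, ‖z j k‖ = lnm (D k).σ (D k).J (D k).r (toPair (D k) (z j k)) :=
    fun j k => rfl
  -- pointwise estimates
  have hA : ∀ k, c + 1 < k → m ≤ k → ∑ i, ‖w i k‖ ^ 2 ≤ 20 * ∑ j, ‖z j k‖ ^ 2 := by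
    intro k hk hmk
    have := h1 n N F (P k) (P (k + 1)) (D k).σ (D k).J (D k).r (fun j => toPair (D k) (z j k))
      (D k).hr (fun j hj1 hj2 => ?_)
    · simp only [hwk, hzk]
      exact this
    · have h4 := hC.hH2 k hk hmk j hj1 hj2
      have h5 := (D k).hr j
      calc (n : ℝ) ^ 2 * (D k).r j ≤ (P (c + 1) : ℝ) ^ 4 * (D k).r j := by gcongr
        _ ≤ _ := h4
  have hB : ∀ k, c + 1 < k → k < m → ∑ i, ‖w i k‖ ^ 2 ≤ 27 * 4 ^ J₁ * ∑ j, ‖z j k‖ ^ 2 := by
    intro k hk hkm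
    obtain ⟨hJ, hc'⟩ := hC.hH1 k hk hkm
    have := h2 n N F (P k) (P (k + 1)) (D k).σ J₁ (D k).J (D k).r
      (fun j => toPair (D k) (z j k)) (D k).hr hJ (fun j hj1 hj2 => ?_)
    · simp only [hwk, hzk]
      exact this
    · have h4 := hc' j hj1 hj2
      have h5 := (D k).hr j
      calc (n : ℝ) ^ 2 * (D k).r j ≤ (P (c + 1) : ℝ) ^ 4 * (D k).r j := by gcongr
        _ ≤ _ := h4
  -- summability
  have hs1 : ∀ i, Summable fun k => if c + 1 < k then ‖w i k‖ ^ 2 else 0 := by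
    intro i
    refine Summable.of_nonneg_of_le (fun k => ?_) (fun k => ?_) (hsum (w i))
    · split_ifs <;> positivity
    · split_ifs
      · exact le_rfl
      · positivity
  have hs2 : ∀ j, Summable fun k => if c + 1 < k ∧ m ≤ k then ‖z j k‖ ^ 2 else 0 := by
    intro j
    refine Summable.of_nonneg_of_le (fun k => ?_) (fun k => ?_) (hsum (z j))
    · split_ifs <;> positivity
    · split_ifs
      · exact le_rfl
      · positivity
  have hs3 : ∀ j, Summable fun k => if c + 1 < k ∧ k < m then ‖z j k‖ ^ 2 else 0 := by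
    intro j
    refine Summable.of_nonneg_of_le (fun k => ?_) (fun k => ?_) (hsum (z j))
    · split_ifs <;> positivity
    · split_ifs
      · exact le_rfl
      · positivity
  have hfin : ∀ j, ∑ k ∈ Finset.Ioo (c + 1) m, ‖z j k‖ ^ 2 =
      ∑' k, if c + 1 < k ∧ k < m then ‖z j k‖ ^ 2 else 0 := by
    intro j
    rw [tsum_eq_sum (s := Finset.Ioo (c + 1) m)]
    · refine Finset.sum_congr rfl fun k hk => ?_
      rw [if_pos (Finset.mem_Ioo.1 hk)]
    · intro k hk
      rw [if_neg (fun h => hk (Finset.mem_Ioo.2 h))]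
  have hL : ∑ i, (∑' k, if c + 1 < k then ‖w i k‖ ^ 2 else 0) =
      ∑' k, ∑ i, if c + 1 < k then ‖w i k‖ ^ 2 else 0 :=
    (Summable.tsum_finsetSum fun i _ => hs1 i).symm
  have hR : 27 * 4 ^ J₁ * ∑ j, ∑ k ∈ Finset.Ioo (c + 1) m, ‖z j k‖ ^ 2 +
        20 * ∑ j, ∑' k, (if c + 1 < k ∧ m ≤ k then ‖z j k‖ ^ 2 else 0) =
      ∑' k, (27 * 4 ^ J₁ * ∑ j, (if c + 1 < k ∧ k < m then ‖z j k‖ ^ 2 else 0) +
        20 * ∑ j, (if c + 1 < k ∧ m ≤ k then ‖z j k‖ ^ 2 else 0)) := by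
    rw [Summable.tsum_add, tsum_mul_left, tsum_mul_left, Summable.tsum_finsetSum fun j _ => hs3 j,
      Summable.tsum_finsetSum fun j _ => hs2 j]
    · simp only [hfin]
    · exact (summable_sum fun j _ => hs3 j).mul_left _
    · exact (summable_sum fun j _ => hs2 j).mul_left _
  show ∑ i, (∑' k, if c + 1 < k then ‖w i k‖ ^ 2 else 0) ≤ _
  rw [hL, hR]
  refine Summable.tsum_le_tsum (fun k => ?_) (summable_sum fun i _ => hs1 i)
    (((summable_sum fun j _ => hs3 j).mul_left _).add ((summable_sum fun j _ => hs2 j).mul_left _))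
  by_cases hk : c + 1 < k
  · by_cases hm : m ≤ k
    · have := hA k hk hm
      simp only [hk, hm, not_lt.2 hm, true_and, and_true, and_false, if_true, if_false,
        Finset.sum_const_zero, mul_zero, zero_add]
      exact this
    · have hm' : k < m := not_le.1 hm
      have := hB k hk hm'
      simp only [hk, hm, hm', true_and, and_true, and_false, if_true, if_false,
        Finset.sum_const_zero, mul_zero, add_zero]
      exact this
  · simp [hk]

end Pool.Agent.Helper18.HL
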