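import Pool.Agent.Helper25.HL.Goals3

/-!
# Project HL (MP_03bcbb_an), packet LF
-/

set_option autoImplicit false

noncomputable section

namespace Pool.Agent.Helper18.HL

open Pool.Agent.Helper25.HL

/-- the functional -/
def fun1 {p q : ℕ} (f₁ : Fin p → ℝ) (f₂ : Fin q → ℝ) (z : (Fin p → ℂ) × (Fin q → ℂ)) : ℂ :=
  ∑ a, (f₁ a : ℂ) * z.1 a + ∑ t, (f₂ t : ℂ) * z.2 t

theorem fun1_add {p q : ℕ} (f₁ : Fin p → ℝ) (f₂ : Fin q → ℝ)
    (z z' : (Fin p → ℂ) × (Fin q → ℂ)) :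
    fun1 f₁ f₂ (z + z') = fun1 f₁ f₂ z + fun1 f₁ f₂ z' := by
  unfold fun1
  simp only [Prod.fst_add, Prod.snd_add, Pi.add_apply, mul_add, Finset.sum_add_distrib]
  ring

theorem fun1_le {p q : ℕ} (f₁ : Fin p → ℝ) (f₂ : Fin q → ℝ)
    (z : (Fin p → ℂ) × (Fin q → ℂ)) :
    ‖fun1 f₁ f₂ z‖ ≤ Real.sqrt (∑ a, f₁ a ^ 2 + ∑ t, f₂ t ^ 2) * Real.sqrt (pq2 z) := by
  have hF : 0 ≤ ∑ a, f₁ a ^ 2 + ∑ t, f₂ t ^ 2 :=
    add_nonneg (Finset.sum_nonneg fun i _ => by positivity)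
      (Finset.sum_nonneg fun i _ => by positivity)
  rw [← Real.sqrt_mul hF]
  apply Real.le_sqrt_of_sq_le
  have h1 : ‖fun1 f₁ f₂ z‖ ≤
      ∑ x : Fin p ⊕ Fin q, |Sum.elim f₁ f₂ x| * ‖Sum.elim z.1 z.2 x‖ := by
    rw [Fintype.sum_sum_type]
    unfold fun1
    refine (norm_add_le _ _).trans (add_le_add ?_ ?_)
    · refine (norm_sum_le _ _).trans (le_of_eq ?_)
      exact Finset.sum_congr rfl fun i _ => by
        rw [norm_mul, Complex.norm_real, Real.norm_eq_abs]; rfl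
    · refine (norm_sum_le _ _).trans (le_of_eq ?_)
      exact Finset.sum_congr rfl fun i _ => by
        rw [norm_mul, Complex.norm_real, Real.norm_eq_abs]; rfl
  have h2 := Finset.sum_mul_sq_le_sq_mul_sq (Finset.univ : Finset (Fin p ⊕ Fin q))
    (fun x => |Sum.elim f₁ f₂ x|) (fun x => ‖Sum.elim z.1 z.2 x‖)
  have e1 : ∑ x : Fin p ⊕ Fin q, |Sum.elim f₁ f₂ x| ^ 2 = ∑ a, f₁ a ^ 2 + ∑ t, f₂ t ^ 2 := by
    rw [Fintype.sum_sum_type]
    simp only [sq_abs, Sum.elim_inl, Sum.elim_inr]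
  have e2 : ∑ x : Fin p ⊕ Fin q, ‖Sum.elim z.1 z.2 x‖ ^ 2 = pq2 z := by
    rw [Fintype.sum_sum_type]
    rfl
  rw [e1, e2] at h2
  exact (pow_le_pow_left₀ (norm_nonneg _) h1 2).trans h2

theorem fun1_Gm {p q : ℕ} (σ : Fin p → Fin q → Bool) (f₁ : Fin p → ℝ) (f₂ : Fin q → ℝ) (M : ℝ)
    (hM : ∀ t, |∑ a, f₁ a * Rm σ a t + f₂ t| ≤ M) (β : Fin q → ℂ) :
    ‖fun1 f₁ f₂ (Gm σ β)‖ ≤ M * l1 β := by
  have e : fun1 f₁ f₂ (Gm σ β) = ∑ t, ((∑ a, f₁ a * Rm σ a t + f₂ t : ℝ) : ℂ) * β t := by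
    unfold fun1
    have h1 : (Gm σ β).1 = fun a => ∑ t, (Rm σ a t : ℂ) * β t := rfl
    have h2 : (Gm σ β).2 = β := rfl
    rw [h1, h2]
    push_cast
    simp only [add_mul, Finset.sum_add_distrib, Finset.mul_sum, Finset.sum_mul]
    rw [Finset.sum_comm]
    congr 1
    refine Finset.sum_congr rfl fun t _ => Finset.sum_congr rfl fun a _ => by ring
  rw [e]
  unfold l1
  rw [Finset.mul_sum]
  refine (norm_sum_le _ _).trans (Finset.sum_le_sum fun t _ => ?_)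
  rw [norm_mul, Complex.norm_real, Real.norm_eq_abs]
  exact mul_le_mul_of_nonneg_right (hM t) (norm_nonneg _)

theorem cs2 (a b x y : ℝ) (hx : 0 ≤ x) (hy : 0 ≤ y) :
    a * x + b * y ≤ Real.sqrt (a ^ 2 + b ^ 2) * Real.sqrt (x ^ 2 + y ^ 2) := by
  rw [← Real.sqrt_mul (by positivity)]
  apply Real.le_sqrt_of_sq_le
  nlinarith [sq_nonneg (a * y - b * x)]

theorem fun1_KK {p q : ℕ} (σ : Fin p → Fin q → Bool) (f₁ : Fin p → ℝ) (f₂ : Fin q → ℝ) (M : ℝ)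
    (hM0 : 0 ≤ M) (hM : ∀ t, |∑ a, f₁ a * Rm σ a t + f₂ t| ≤ M) (r : ℝ) (hr : 0 < r)
    (z : (Fin p → ℂ) × (Fin q → ℂ)) :
    ‖fun1 f₁ f₂ z‖ ≤ Real.sqrt (∑ a, f₁ a ^ 2 + ∑ t, f₂ t ^ 2 + r * M ^ 2) * KK σ r z := by
  set F : ℝ := ∑ a, f₁ a ^ 2 + ∑ t, f₂ t ^ 2 with hFdef
  have hF : 0 ≤ F :=
    add_nonneg (Finset.sum_nonneg fun i _ => by positivity)
      (Finset.sum_nonneg fun i _ => by positivity)
  unfold KK
  rw [Real.mul_iInf_of_nonneg (Real.sqrt_nonneg _)]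
  refine le_ciInf fun β => ?_
  have h1 : ‖fun1 f₁ f₂ z‖ ≤ Real.sqrt F * Real.sqrt (pq2 (z - Gm σ β)) + M * l1 β := by
    have e : fun1 f₁ f₂ z = fun1 f₁ f₂ (z - Gm σ β) + fun1 f₁ f₂ (Gm σ β) := by
      rw [← fun1_add, sub_add_cancel]
    rw [e]
    exact (norm_add_le _ _).trans (add_le_add (fun1_le f₁ f₂ _) (fun1_Gm σ f₁ f₂ M hM β))
  have h2 := cs2 (Real.sqrt F) (Real.sqrt r * M) (Real.sqrt (pq2 (z - Gm σ β)))
    (l1 β / Real.sqrt r) (Real.sqrt_nonneg _) (div_nonneg (l1_nn _) (Real.sqrt_nonneg _))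
  have hsr : Real.sqrt r ≠ 0 := (Real.sqrt_pos.2 hr).ne'
  have e1 : Real.sqrt r * M * (l1 β / Real.sqrt r) = M * l1 β := by
    field_simp
  rw [e1, Real.sq_sqrt hF, mul_pow, Real.sq_sqrt hr.le, div_pow, Real.sq_sqrt hr.le,
    Real.sq_sqrt (pq2_nn _)] at h2
  exact h1.trans h2

theorem lf : S_LF := by
  intro p q σ J r hr f₁ f₂ M hM0 hM z
  refine ⟨fun hJ => ?_, fun hJ => ?_⟩
  · have h1 := fun1_KK σ f₁ f₂ M hM0 hM (r J) (hr J) z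
    have h2 : KK σ (r J) z ≤ lnm σ J r z := by
      unfold lnm
      apply Real.le_sqrt_of_sq_le
      have h3 : (4 : ℝ) ^ J / 4 ^ J * (Kj σ r J z) ^ 2 ≤
          ∑ j ∈ Finset.range (J + 1), (4 : ℝ) ^ j / 4 ^ J * (Kj σ r j z) ^ 2 :=
        Finset.single_le_sum (f := fun j => (4 : ℝ) ^ j / 4 ^ J * (Kj σ r j z) ^ 2)
          (fun j _ => by positivity) (Finset.mem_range.2 (Nat.lt_succ_self J))
      have h4 : Kj σ r J z = KK σ (r J) z := by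
        unfold Kj
        rw [if_neg (by omega)]
      rw [div_self (by positivity), one_mul, h4] at h3
      exact h3
    exact h1.trans (mul_le_mul_of_nonneg_left h2 (Real.sqrt_nonneg _))
  · subst hJ
    have h1 := fun1_le f₁ f₂ z
    have h2 : lnm σ 0 r z = Real.sqrt (pq2 z) := by
      unfold lnm
      simp only [Finset.range_one, Finset.sum_singleton, pow_zero, Kj, if_true, zero_add]
      rw [div_one, one_mul, Real.sq_sqrt (pq2_nn z)]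
    rw [h2]
    exact h1

end Pool.Agent.Helper18.HL
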