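import Pool.Agent.Helper25.HL.Goals1

/-!
# Project HL (MP_03bcbb_an), packet RO
-/

set_option autoImplicit false

noncomputable section

namespace Pool.Agent.Helper18.HL

open Pool.Agent.Helper25.HL

theorem rtz_nonneg (x h : ℝ) (hh : 0 < h) (hx : 0 ≤ x) :
    ∃ a : ℤ, |(a : ℝ)| * h ≤ |x| ∧ |x - h * a| ≤ |x| ∧ |x - h * a| ≤ h := by
  refine ⟨⌊x / h⌋, ?_⟩
  have h0 : 0 ≤ x / h := div_nonneg hx hh.le
  have h1 : (0 : ℝ) ≤ (⌊x / h⌋ : ℝ) := by exact_mod_cast Int.floor_nonneg.2 h0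
  have h2 : (⌊x / h⌋ : ℝ) * h ≤ x := by
    have := Int.floor_le (x / h)
    rwa [le_div_iff₀ hh] at this
  have h3 : x < ((⌊x / h⌋ : ℝ) + 1) * h := by
    have := Int.lt_floor_add_one (x / h)
    rwa [div_lt_iff₀ hh] at this
  rw [abs_of_nonneg h1, abs_of_nonneg hx, abs_of_nonneg (by linarith : 0 ≤ x - h * ⌊x / h⌋)]
  have h4 : 0 ≤ (⌊x / h⌋ : ℝ) * h := mul_nonneg h1 hh.le
  exact ⟨h2, by linarith, by linarith⟩

theorem rtz (x h : ℝ) (hh : 0 < h) :
    ∃ a : ℤ, |(a : ℝ)| * h ≤ |x| ∧ |x - h * a| ≤ |x| ∧ |x - h * a| ≤ h := by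
  rcases le_total 0 x with hx | hx
  · exact rtz_nonneg x h hh hx
  · obtain ⟨a, h1, h2, h3⟩ := rtz_nonneg (-x) h hh (by linarith)
    refine ⟨-a, ?_, ?_, ?_⟩
    · push_cast; rwa [abs_neg, ← abs_neg x]
    · push_cast
      rw [← abs_neg x, ← abs_neg (x - h * -a)]
      convert h2 using 2
      ring
    · push_cast
      rw [← abs_neg (x - h * -a)]
      convert h3 using 2
      ring

theorem nsq (z : ℂ) : ‖z‖ ^ 2 = z.re ^ 2 + z.im ^ 2 := by
  rw [← Complex.normSq_eq_norm_sq, Complex.normSq_apply]; ring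

theorem ro : S_RO := by
  intro M v h hh
  choose a ha1 ha2 ha3 using fun t => rtz (v t).re h hh
  choose b hb1 hb2 hb3 using fun t => rtz (v t).im h hh
  set m : Fin M → ℂ := fun t => (a t : ℂ) + (b t : ℂ) * Complex.I with hm
  have hre : ∀ t, (v t - h * m t).re = (v t).re - h * a t := by
    intro t; simp [hm]
  have him : ∀ t, (v t - h * m t).im = (v t).im - h * b t := by
    intro t; simp [hm]
  have hre' : ∀ t, ((h : ℂ) * m t).re = h * a t := by
    intro t; simp [hm]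
  have him' : ∀ t, ((h : ℂ) * m t).im = h * b t := by
    intro t; simp [hm]
  have hr : ∀ t, |(v t).re| ≤ ‖v t‖ := fun t => Complex.abs_re_le_norm _
  have hi : ∀ t, |(v t).im| ≤ ‖v t‖ := fun t => Complex.abs_im_le_norm _
  have e1 : ∀ t, ‖v t - h * m t‖ ^ 2 ≤ 2 * h ^ 2 := by
    intro t
    rw [nsq, hre, him]
    have h1 := pow_le_pow_left₀ (abs_nonneg _) (ha3 t) 2
    have h2 := pow_le_pow_left₀ (abs_nonneg _) (hb3 t) 2
    rw [sq_abs] at h1 h2
    linarith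
  have e2 : ∀ t, ‖v t - h * m t‖ ^ 2 ≤ 2 * h * ‖v t‖ := by
    intro t
    rw [nsq, hre, him, ← sq_abs, ← sq_abs ((v t).im - _), _root_.sq, _root_.sq]
    have h1 : |(v t).re - h * a t| * |(v t).re - h * a t| ≤ h * ‖v t‖ :=
      mul_le_mul (ha3 t) ((ha2 t).trans (hr t)) (abs_nonneg _) hh.le
    have h2 : |(v t).im - h * b t| * |(v t).im - h * b t| ≤ h * ‖v t‖ :=
      mul_le_mul (hb3 t) ((hb2 t).trans (hi t)) (abs_nonneg _) hh.le
    linarith
  have e3 : ∀ t, ‖v t - h * m t‖ ≤ ‖v t‖ := by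
    intro t
    apply le_of_sq_le_sq _ (norm_nonneg _)
    rw [nsq, nsq, hre, him]
    have h1 := pow_le_pow_left₀ (abs_nonneg _) (ha2 t) 2
    have h2 := pow_le_pow_left₀ (abs_nonneg _) (hb2 t) 2
    rw [sq_abs, sq_abs] at h1 h2
    linarith
  have e4 : ∀ t, ‖(h : ℂ) * m t‖ ^ 2 ≤ ‖v t‖ ^ 2 := by
    intro t
    rw [nsq, nsq, hre', him']
    have h1 := pow_le_pow_left₀ (by positivity) (ha1 t) 2
    have h2 := pow_le_pow_left₀ (by positivity) (hb1 t) 2
    rw [mul_pow, sq_abs, sq_abs] at h1 h2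
    nlinarith
  have e5 : ∀ t, ‖(h : ℂ) * m t‖ ≤ ‖v t‖ := by
    intro t
    exact le_of_sq_le_sq (e4 t) (norm_nonneg _)
  refine ⟨a, b, m, fun t => rfl, fun t => ⟨(ha1 t).trans (hr t), (hb1 t).trans (hi t)⟩, ?_, e1,
    ?_, ?_, ?_, ?_⟩
  · unfold l1
    rw [Finset.sum_mul, Finset.mul_sum]
    refine Finset.sum_le_sum fun t _ => ?_
    have h1 := (ha1 t).trans (hr t)
    have h2 := (hb1 t).trans (hi t)
    rw [add_mul]; linarith
  · unfold Pool.Agent.Helper25.HL.sq l1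
    rw [Finset.mul_sum]
    exact Finset.sum_le_sum fun t _ => e2 t
  · unfold l1
    exact Finset.sum_le_sum fun t _ => e3 t
  · unfold l1
    exact Finset.sum_le_sum fun t _ => e5 t
  · unfold Pool.Agent.Helper25.HL.sq
    exact Finset.sum_le_sum fun t _ => e4 t

end Pool.Agent.Helper18.HL
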